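import Pool.Agent.ZRT.StmtsB

/-!
# ZRT, row HYP (helper86): the hyperbolic geodesic in polar coordinates
-/

set_option autoImplicit false

noncomputable section

open scoped ContDiff Topology RealInnerProductSpace
open Set

namespace Pool.Agent.ZRT.H86

open Real

theorem exp_piHalf : Real.exp (1.5708 : ℝ) ≤ 4.811 := by
  have h1 : Real.exp (1 : ℝ) < 2.7182818286 := Real.exp_one_lt_d9
  have h2 : Real.exp (0.5708 : ℝ) ≤ 1.7698 := by
    have := Real.exp_bound' (x := (0.5708 : ℝ)) (by norm_num) (by norm_num) (n := 7) (by norm_num)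
    refine this.trans ?_
    norm_num [Finset.sum_range_succ, Nat.factorial]
  have h3 : Real.exp (1.5708 : ℝ) = Real.exp 1 * Real.exp 0.5708 := by
    rw [← Real.exp_add]; norm_num
  rw [h3]
  have h4 : 0 < Real.exp (0.5708 : ℝ) := Real.exp_pos _
  nlinarith [Real.exp_pos (1 : ℝ)]

theorem cosh_piHalf : Real.cosh (1.5708 : ℝ) ≤ 2.51 := by
  rw [Real.cosh_eq, Real.exp_neg]
  have h1 := exp_piHalf
  have h2 : (1 : ℝ) ≤ Real.exp 1.5708 := Real.one_le_exp (by norm_num)
  have h3 : (4 : ℝ) ≤ Real.exp 1.5708 := by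
    have h5 : (1.5708 : ℝ) = 1 + 0.5708 := by norm_num
    have h6 : (2.7182818283 : ℝ) < Real.exp 1 := Real.exp_one_gt_d9
    have h7 : (0.5708 : ℝ) + 1 ≤ Real.exp 0.5708 := Real.add_one_le_exp _
    rw [h5, Real.exp_add]
    nlinarith
  have h8 : (Real.exp 1.5708)⁻¹ + Real.exp 1.5708 ≤ (4.811 : ℝ)⁻¹ + 4.811 := by
    have h9 : (Real.exp 1.5708)⁻¹ - (4.811 : ℝ)⁻¹ =
        (4.811 - Real.exp 1.5708) * ((Real.exp 1.5708)⁻¹ * (4.811 : ℝ)⁻¹) := by
      field_simp
    have h10 : (Real.exp 1.5708)⁻¹ ≤ 4⁻¹ := inv_anti₀ (by norm_num) h3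
    have h11 : (Real.exp 1.5708)⁻¹ * (4.811 : ℝ)⁻¹ ≤ 1 := by
      have : (4.811 : ℝ)⁻¹ ≤ 1 := by norm_num
      have h0 : 0 < (Real.exp 1.5708)⁻¹ := by positivity
      nlinarith
    nlinarith
  have h12 : ((4.811 : ℝ)⁻¹ + 4.811) / 2 ≤ 2.51 := by norm_num
  linarith

theorem sin_fifth : Real.sin (1 / 5 : ℝ) ≤ 0.1988 := by
  have h := Real.sin_bound (x := (1 / 5 : ℝ)) (by rw [abs_of_pos] <;> norm_num)
  rw [abs_le] at h
  have h2 := h.2
  rw [abs_of_pos (by norm_num : (0 : ℝ) < 1 / 5)] at h2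
  norm_num at h2 ⊢
  linarith

/-- `2 cosh (L/2) sin (w/2) < 1` -/
theorem A_lt {L w : ℝ} (hL : 0 < L) (hL' : L < Real.pi) (hw : 0 < w) (hw' : w ≤ 2 / 5) :
    2 * Real.cosh (L / 2) * Real.sin (w / 2) < 1 := by
  have hpi : Real.pi < 3.1416 := Real.pi_lt_d4
  have h1 : Real.cosh (L / 2) ≤ Real.cosh 1.5708 := by
    rw [Real.cosh_le_cosh, abs_of_pos (by linarith), abs_of_pos (by norm_num)]
    linarith
  have h2 : Real.sin (w / 2) ≤ Real.sin (1 / 5) := by
    apply Real.sin_le_sin_of_le_of_le_pi_div_two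
    · linarith [Real.pi_pos]
    · linarith [Real.pi_gt_three]
    · linarith
  have h3 : 0 < Real.sin (w / 2) := Real.sin_pos_of_pos_of_lt_pi (by linarith) (by linarith [Real.pi_gt_three])
  have h4 : 0 < Real.cosh (L / 2) := Real.cosh_pos _
  have h5 := cosh_piHalf
  have h6 := sin_fifth
  have h7 : Real.cosh (L / 2) * Real.sin (w / 2) ≤ 2.51 * 0.1988 :=
    mul_le_mul (h1.trans h5) (h2.trans h6) h3.le (by norm_num)
  nlinarith

theorem hyp : HypStatement := by
  intro L w hL hL' hw hw'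
  have hA := A_lt hL hL' hw hw'
  have hsw : 0 < Real.sin (w / 2) :=
    Real.sin_pos_of_pos_of_lt_pi (by linarith) (by linarith [Real.pi_gt_three])
  have hcw : 0 < Real.cos (w / 2) :=
    Real.cos_pos_of_mem_Ioo ⟨by linarith [Real.pi_gt_three], by linarith [Real.pi_gt_three]⟩
  have hsL : 0 < Real.sinh L := Real.sinh_pos_iff.2 hL
  set c : ℝ := Real.arsinh (Real.sinh L * Real.sin (w / 2)) with hc
  have hsc : Real.sinh c = Real.sinh L * Real.sin (w / 2) := by rw [hc, Real.sinh_arsinh]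
  have hc0 : 0 < c := by
    rw [← Real.sinh_pos_iff, hsc]; positivity
  have hcL : c < L / 2 := by
    rw [← Real.sinh_lt_sinh, hsc]
    have h1 : Real.sinh L = 2 * Real.sinh (L / 2) * Real.cosh (L / 2) := by
      rw [← Real.sinh_two_mul]; ring_nf
    have h2 : 0 < Real.sinh (L / 2) := Real.sinh_pos_iff.2 (by linarith)
    rw [h1]
    nlinarith
  set l : ℝ := 2 * c with hl
  have hl0 : 0 < l := by positivity
  have hcc : 0 < Real.cosh c := Real.cosh_pos _
  set C : ℝ := Real.cosh L / Real.cosh c with hC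
  set S : ℝ := Real.sinh L * Real.cos (w / 2) / Real.cosh c with hS
  have hS0 : 0 < S := by positivity
  have hCc : C * Real.cosh c = Real.cosh L := by rw [hC]; field_simp
  have hSc : S * Real.cosh c = Real.sinh L * Real.cos (w / 2) := by rw [hS]; field_simp
  have hCS : S ^ 2 = C ^ 2 - 1 := by
    have h1 : (S * Real.cosh c) ^ 2 = (C ^ 2 - 1) * Real.cosh c ^ 2 := by
      rw [hSc]
      have h2 : (C ^ 2 - 1) * Real.cosh c ^ 2 = (C * Real.cosh c) ^ 2 - Real.cosh c ^ 2 := by ring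
      rw [h2, hCc, Real.cosh_sq, Real.cosh_sq, hsc]
      have h3 := Real.sin_sq_add_cos_sq (w / 2)
      have h4 : Real.cos (w / 2) ^ 2 = 1 - Real.sin (w / 2) ^ 2 := by linarith
      rw [mul_pow, h4]; ring
    have h5 : Real.cosh c ^ 2 ≠ 0 := by positivity
    apply mul_right_cancel₀ h5
    rw [← h1]; ring
  have hC1 : 1 < C := by
    rw [hC, lt_div_iff₀ hcc, one_mul, Real.cosh_lt_cosh, abs_of_pos hc0, abs_of_pos hL]
    linarith
  -- the functions
  let x : ℝ → ℝ := fun s => l * (s - 1 / 2)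
  have hx : ∀ s, HasDerivAt x l s := fun s => by
    have h1 := ((hasDerivAt_id s).sub_const (1 / 2 : ℝ)).const_mul l
    exact h1.congr_deriv (mul_one l)
  let q : ℝ → ℝ := fun s => C ^ 2 * Real.cosh (x s) ^ 2 - 1
  have hq0 : ∀ s, 0 < q s := fun s => by
    have h1 : 1 ≤ Real.cosh (x s) := Real.one_le_cosh _
    have h2 : 1 ≤ Real.cosh (x s) ^ 2 := one_le_pow₀ h1
    have h3 : 1 < C ^ 2 := one_lt_pow₀ hC1 (by norm_num)
    have : 1 < C ^ 2 * Real.cosh (x s) ^ 2 := by nlinarith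
    show 0 < C ^ 2 * Real.cosh (x s) ^ 2 - 1
    linarith
  let y : ℝ → ℝ := fun s => Real.sqrt (q s)
  have hy0 : ∀ s, 0 < y s := fun s => Real.sqrt_pos.2 (hq0 s)
  have hy2 : ∀ s, y s ^ 2 = q s := fun s => Real.sq_sqrt (hq0 s).le
  have hq : ∀ s, HasDerivAt q (C ^ 2 * (2 * Real.cosh (x s) * (Real.sinh (x s) * l))) s := fun s => by
    have h1 := (hx s).cosh
    have h2 := ((h1.pow 2).const_mul (C ^ 2)).sub_const (1 : ℝ)
    refine h2.congr_deriv ?_
    simp only [Nat.cast_ofNat, Nat.add_one_sub_one, pow_one]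
  have hy : ∀ s, HasDerivAt y (C ^ 2 * (2 * Real.cosh (x s) * (Real.sinh (x s) * l)) / (2 * y s)) s :=
    fun s => (hq s).sqrt (hq0 s).ne'
  let r : ℝ → ℝ := fun s => Real.arsinh (y s)
  have hsr : ∀ s, Real.sinh (r s) = y s := fun s => Real.sinh_arsinh _
  let r' : ℝ → ℝ := fun s => l * C * Real.sinh (x s) / y s
  have hCx : ∀ s, 0 < C * Real.cosh (x s) := fun s =>
    mul_pos (by linarith) (Real.cosh_pos _)
  have hr : ∀ s, HasDerivAt r (r' s) s := fun s => by
    have h1 := (hy s).arsinh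
    refine h1.congr_deriv ?_
    have h2 : Real.sqrt (1 + y s ^ 2) = C * Real.cosh (x s) := by
      rw [hy2]
      have : 1 + q s = (C * Real.cosh (x s)) ^ 2 := by
        show 1 + (C ^ 2 * Real.cosh (x s) ^ 2 - 1) = _
        ring
      rw [this, Real.sqrt_sq (hCx s).le]
    rw [h2]
    have h3 := (hy0 s).ne'
    have h4 := (hCx s).ne'
    have h5 : Real.cosh (x s) ≠ 0 := (Real.cosh_pos _).ne'
    have h6 : C ≠ 0 := by linarith
    show _ = l * C * Real.sinh (x s) / y s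
    simp only [smul_eq_mul]
    field_simp
  let φ : ℝ → ℝ := fun s => w / 2 + Real.arctan (Real.sinh (x s) / (S * Real.cosh (x s)))
  let φ' : ℝ → ℝ := fun s => l * S / q s
  have hqS : ∀ s, q s = S ^ 2 * Real.cosh (x s) ^ 2 + Real.sinh (x s) ^ 2 := fun s => by
    show C ^ 2 * Real.cosh (x s) ^ 2 - 1 = _
    rw [hCS]
    have := Real.cosh_sq (x s)
    nlinarith
  have hφ : ∀ s, HasDerivAt φ (φ' s) s := fun s => by
    have h1 := (hx s).sinh
    have h2 := ((hx s).cosh).const_mul S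
    have h5 : Real.cosh (x s) ≠ 0 := (Real.cosh_pos _).ne'
    have h6 : S * Real.cosh (x s) ≠ 0 := mul_ne_zero hS0.ne' h5
    have h3 := ((h1.div h2 h6).arctan).const_add (w / 2)
    refine h3.congr_deriv ?_
    show 1 / (1 + (Real.sinh (x s) / (S * Real.cosh (x s))) ^ 2) *
      ((Real.cosh (x s) * l * (S * Real.cosh (x s)) -
        Real.sinh (x s) * (S * (Real.sinh (x s) * l))) / (S * Real.cosh (x s)) ^ 2) = l * S / q s
    have h7 := (hq0 s).ne'
    have h8 : 1 + (Real.sinh (x s) / (S * Real.cosh (x s))) ^ 2 =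
        q s / (S * Real.cosh (x s)) ^ 2 := by
      rw [hqS]; field_simp
    rw [h8]
    have h9 : Real.cosh (x s) ^ 2 - Real.sinh (x s) ^ 2 = 1 := Real.cosh_sq_sub_sinh_sq _
    have h10 : Real.cosh (x s) * l * (S * Real.cosh (x s)) -
        Real.sinh (x s) * (S * (Real.sinh (x s) * l)) = l * S := by
      linear_combination (l * S) * h9
    rw [h10]
    field_simp
  have hφ0 : Real.arctan (Real.sinh c / (S * Real.cosh c)) = w / 2 := by
    rw [hSc, hsc, mul_div_mul_left _ _ hsL.ne', ← Real.tan_eq_sin_div_cos]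
    exact Real.arctan_tan (by linarith [Real.pi_gt_three]) (by linarith [Real.pi_gt_three])
  have hx0 : x 0 = -c := by show l * (0 - 1 / 2) = -c; rw [hl]; ring
  have hx1 : x 1 = c := by show l * (1 - 1 / 2) = c; rw [hl]; ring
  have hqe : ∀ s, Real.cosh (x s) = Real.cosh c → q s = Real.sinh L ^ 2 := fun s hs => by
    show C ^ 2 * Real.cosh (x s) ^ 2 - 1 = _
    rw [hs, ← mul_pow, hCc, Real.cosh_sq]; ring
  have hre : ∀ s, Real.cosh (x s) = Real.cosh c → r s = L := fun s hs => by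
    show Real.arsinh (Real.sqrt (q s)) = L
    rw [hqe s hs, Real.sqrt_sq hsL.le, Real.arsinh_sinh]
  have hφz : φ 0 = 0 := by
    show w / 2 + Real.arctan (Real.sinh (x 0) / (S * Real.cosh (x 0))) = 0
    rw [hx0, Real.sinh_neg, Real.cosh_neg, neg_div, Real.arctan_neg, hφ0]; ring
  have hφo : φ 1 = w := by
    show w / 2 + Real.arctan (Real.sinh (x 1) / (S * Real.cosh (x 1))) = w
    rw [hx1, hφ0]; ring
  have hφm : Monotone φ := by
    apply monotone_of_deriv_nonneg (fun s => (hφ s).differentiableAt)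
    intro s
    rw [(hφ s).deriv]
    have := hq0 s
    show 0 ≤ l * S / q s
    positivity
  refine ⟨l, hl0, by rw [hl]; linarith, r, r', φ, φ', hr, hφ, hre 0 (by rw [hx0, Real.cosh_neg]),
    hre 1 (by rw [hx1]), hφz, hφo, ?_⟩
  intro s hs
  refine ⟨?_, ?_, ?_, ?_, ?_⟩
  · show 0 < Real.arsinh (y s)
    rw [← Real.sinh_pos_iff, Real.sinh_arsinh]; exact hy0 s
  · have h1 : Real.cosh (x s) ≤ Real.cosh c := by
      rw [Real.cosh_le_cosh, abs_of_pos hc0, abs_le]
      have h2 : x s = 2 * c * (s - 1 / 2) := rfl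
      rw [h2]
      constructor <;> nlinarith [hs.1, hs.2]
    rw [← Real.sinh_le_sinh, hsr]
    show Real.sqrt (q s) ≤ Real.sinh L
    apply Real.sqrt_le_iff.2 ⟨hsL.le, ?_⟩
    show C ^ 2 * Real.cosh (x s) ^ 2 - 1 ≤ _
    have h2 : Real.cosh (x s) ^ 2 ≤ Real.cosh c ^ 2 :=
      pow_le_pow_left₀ (Real.cosh_pos _).le h1 2
    have h3 : C ^ 2 * Real.cosh c ^ 2 = Real.sinh L ^ 2 + 1 := by
      rw [← mul_pow, hCc, Real.cosh_sq]
    nlinarith [sq_nonneg C]
  · rw [← hφz]; exact hφm hs.1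
  · rw [← hφo]; exact hφm hs.2
  · rw [hsr, hy2]
    show (l * C * Real.sinh (x s) / y s) ^ 2 + q s * (l * S / q s) ^ 2 ≤ l ^ 2
    have h7 := (hq0 s).ne'
    have h8 : (l * C * Real.sinh (x s) / y s) ^ 2 = (l * C * Real.sinh (x s)) ^ 2 / q s := by
      rw [div_pow, hy2]
    rw [h8]
    have h9 : (l * C * Real.sinh (x s)) ^ 2 / q s + q s * (l * S / q s) ^ 2 =
        l ^ 2 * (C ^ 2 * Real.sinh (x s) ^ 2 + S ^ 2) / q s := by
      field_simp
    rw [h9, hCS]
    have h10 : C ^ 2 * Real.sinh (x s) ^ 2 + (C ^ 2 - 1) = q s := by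
      show _ = C ^ 2 * Real.cosh (x s) ^ 2 - 1
      rw [Real.cosh_sq]; ring
    rw [h10, mul_div_assoc, div_self h7, mul_one]

end Pool.Agent.ZRT.H86
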