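import Pool.Agent.ZRT.StmtsB
import Mathlib.Topology.Homotopy.Lifting

/-!
# ZRT, row LTP (helper86): joint continuity of a family of lifts
-/

set_option autoImplicit false

noncomputable section

open scoped ContDiff Topology RealInnerProductSpace
open Set

namespace Pool.Agent.ZRT.H86

open Pool.Agent.RF Pool.Agent.MVS Pool.Agent.ZRT

variable {G : E5 → Bil E5} {ex : E5 × E5 → E5}

theorem cdE (hE : IsExp G ex) {m : E5} (hm : m ∈ Om (Fin 5)) :
    ContDiff ℝ ∞ (fun u : E5 => ex (m, u)) := by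
  rw [contDiff_iff_contDiffAt]
  intro u
  have hmem : (m, u) ∈ Om (Fin 5) ×ˢ (univ : Set E5) := ⟨hm, mem_univ u⟩
  have hO : IsOpen (Om (Fin 5)) := isOpen_compl_singleton
  have h1 : ContDiffAt ℝ ∞ ex (m, u) :=
    (hE.smooth (m, u) hmem).contDiffAt ((hO.prod isOpen_univ).mem_nhds hmem)
  exact h1.comp u (contDiffAt_const.prodMk contDiffAt_id)

/-- `exp_m` is a local homeomorphism on the ball of radius `π` -/
theorem localHomeo (hD : XdeStatement) (hG : IsCyl G) (hK : SecLe G) (hE : IsExp G ex) {m : E5}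
    (hm : m ∈ Om (Fin 5)) :
    IsLocalHomeomorphOn (fun u : E5 => ex (m, u)) {v | nm G m v < Real.pi} := by
  intro v hv
  obtain ⟨-, hb⟩ := hD G ex hG hK hE m hm v hv
  set A : E5 →L[ℝ] E5 := fderiv ℝ (fun u : E5 => ex (m, u)) v with hA
  let e : E5 ≃L[ℝ] E5 := ContinuousLinearEquiv.ofBijective A
    (LinearMap.ker_eq_bot.2 hb.1) (LinearMap.range_eq_top.2 hb.2)
  have he : (e : E5 →L[ℝ] E5) = A := ContinuousLinearEquiv.coe_ofBijective _ _ _
  have hs : HasStrictFDerivAt (fun u : E5 => ex (m, u)) (e : E5 →L[ℝ] E5) v := by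
    rw [he]
    exact (cdE hE hm).contDiffAt.hasStrictFDerivAt (by simp)
  exact ⟨hs.toOpenPartialHomeomorph _, hs.mem_toOpenPartialHomeomorph_source,
    (hs.toOpenPartialHomeomorph_coe).symm⟩

theorem continuous_nm (G : E5 → Bil E5) (m : E5) : Continuous (nm G m) := by
  unfold nm
  fun_prop

theorem ltp (hD : XdeStatement) : LtpStatement := by
  intro G ex hG hK hE m hm c H hc hH h0
  set U : Set E5 := {v | nm G m v < Real.pi} with hU
  have hUo : IsOpen U := isOpen_lt (continuous_nm G m) continuous_const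
  let p : U → E5 := fun v => ex (m, (v : E5))
  have hp : IsLocalHomeomorph p := by
    rw [isLocalHomeomorph_iff_isLocalHomeomorphOn_univ]
    have h1 : IsLocalHomeomorphOn (Subtype.val : U → E5) univ :=
      hUo.isOpenEmbedding_subtypeVal.isLocalHomeomorph.isLocalHomeomorphOn
    exact (localHomeo hD hG hK hE hm).comp h1 (fun v _ => v.2)
  have hsep : IsSeparatedMap p := T2Space.isSeparatedMap p
  let f : C(unitInterval × Icc (0 : ℝ) 1, E5) :=
    ⟨fun x => c ((x.2 : ℝ), (x.1 : ℝ)), by
      refine hc.comp_continuous (by fun_prop) (fun x => ⟨x.2.2, x.1.2⟩)⟩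
  let g : unitInterval × Icc (0 : ℝ) 1 → U :=
    fun x => ⟨H (x.2 : ℝ) (x.1 : ℝ), (hH x.2 x.2.2).lt x.1 x.1.2⟩
  have hg : Continuous g := by
    refine hp.continuous_lift hsep f (g := g) ?_ ?_ ?_
    · funext x
      exact (hH x.2 x.2.2).eq x.1 x.1.2
    · refine Continuous.subtype_mk ?_ _
      exact h0.comp_continuous continuous_subtype_val (fun x => x.2)
    · intro a
      refine Continuous.subtype_mk ?_ _
      exact (hH a a.2).cont.comp_continuous continuous_subtype_val (fun x => x.2)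
  rw [continuousOn_iff_continuous_domRestrict]
  have h2 : Continuous (fun x : (Icc (0 : ℝ) 1 ×ˢ Icc (0 : ℝ) 1 : Set (ℝ × ℝ)) =>
      ((⟨x.1.2, x.2.2⟩, ⟨x.1.1, x.2.1⟩) : unitInterval × Icc (0 : ℝ) 1)) := by
    refine Continuous.prodMk ?_ ?_
    · exact Continuous.subtype_mk (continuous_snd.comp continuous_subtype_val) _
    · exact Continuous.subtype_mk (continuous_fst.comp continuous_subtype_val) _
  exact continuous_subtype_val.comp (hg.comp h2)

end Pool.Agent.ZRT.H86
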